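import Mathlib

/-!
# Masses of balls on the circle: the covering lemma

`lintegral_inv_ball`: the integral of `1 / ν (B(x, r / 4))` over a ball of radius `r` is at most `8`.
`lintegral_ball_inter`: the integral of `ν (B(x, r) ∩ A) / ν (B(x, r / 4))` is at most `8 ν A`.
-/

set_option autoImplicit false

open MeasureTheory Metric Set

namespace Pool.Agent.Helper12.MX

/-- the mass of the ball of radius `ρ` is a measurable function of the centre -/
theorem meas_ball {X : Type*} [PseudoMetricSpace X] [SecondCountableTopology X]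
    [MeasurableSpace X] [OpensMeasurableSpace X] (ν : Measure X) [SFinite ν] (ρ : ℝ) :
    Measurable fun x => ν (closedBall x ρ) := by
  have hs : MeasurableSet {p : X × X | dist p.2 p.1 ≤ ρ} :=
    (isClosed_le (continuous_snd.dist continuous_fst) continuous_const).measurableSet
  exact measurable_measure_prodMk_left hs

/-- the same for the intersection with a measurable set -/
theorem meas_ball_inter {X : Type*} [PseudoMetricSpace X] [SecondCountableTopology X]
    [MeasurableSpace X] [OpensMeasurableSpace X] (ν : Measure X) [SFinite ν] (ρ : ℝ) {A : Set X}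
    (hA : MeasurableSet A) : Measurable fun x => ν (closedBall x ρ ∩ A) := by
  have hs : MeasurableSet ({p : X × X | dist p.2 p.1 ≤ ρ} ∩ Prod.snd ⁻¹' A) :=
    (isClosed_le (continuous_snd.dist continuous_fst) continuous_const).measurableSet.inter
      (measurable_snd hA)
  exact measurable_measure_prodMk_left hs

/-- the integral of `1 / ν (B(x, ρ))` over a set of diameter at most `ρ` is at most `1` -/
theorem lintegral_inv_le_one {X : Type*} [PseudoMetricSpace X] [MeasurableSpace X]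
    [OpensMeasurableSpace X] (ν : Measure X) {ρ : ℝ} {I : Set X} (hI : MeasurableSet I)
    (h : ∀ x ∈ I, ∀ y ∈ I, dist x y ≤ ρ) :
    ∫⁻ x in I, (ν (closedBall x ρ))⁻¹ ∂ν ≤ 1 := by
  calc ∫⁻ x in I, (ν (closedBall x ρ))⁻¹ ∂ν ≤ ∫⁻ _ in I, (ν I)⁻¹ ∂ν := by
        refine setLIntegral_mono' hI fun x hx => ?_
        exact ENNReal.inv_le_inv.2 (measure_mono fun y hy => mem_closedBall.2 (h y hy x hx))
    _ = (ν I)⁻¹ * ν I := by rw [setLIntegral_const]
    _ ≤ 1 := ENNReal.inv_mul_le_one _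

theorem exists_rep (x : AddCircle (1 : ℝ)) : ∃ t : ℝ, (t : AddCircle (1 : ℝ)) = x ∧ |t| = ‖x‖ := by
  induction x using QuotientAddGroup.induction_on with
  | H s =>
    refine ⟨s - round ((1 : ℝ)⁻¹ * s) * 1, ?_, (AddCircle.norm_eq (1 : ℝ)).symm⟩
    rw [AddCircle.coe_sub, sub_eq_self, mul_one, AddCircle.coe_eq_zero_iff]
    exact ⟨round ((1 : ℝ)⁻¹ * s), by simp⟩

theorem norm_coe_le (t : ℝ) : ‖(t : AddCircle (1 : ℝ))‖ ≤ |t| := by
  rw [AddCircle.norm_eq, inv_one, one_mul, mul_one]
  simpa using round_le t 0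

theorem exists_fin {r t : ℝ} (hr : 0 < r) (h1 : -r ≤ t) (h2 : t ≤ r) :
    ∃ i : Fin 8, |t - (-r + (2 * (i : ℝ) + 1) * (r / 8))| ≤ r / 8 := by
  by_contra hc
  push Not at hc
  have key : ∀ k : ℕ, k ≤ 8 → -r + k * (r / 4) ≤ t := by
    intro k
    induction k with
    | zero => intro _; simpa using h1
    | succ k ih =>
      intro hk
      have h3 := ih (by omega)
      have h4 := hc ⟨k, by omega⟩
      simp only at h4
      by_contra h5
      push Not at h5
      push_cast at h5
      refine absurd h4 (not_lt.2 (abs_le.2 ⟨?_, ?_⟩)) <;> nlinarith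
  have h8 := key 8 le_rfl
  have h7 := hc 7
  have e7 : ((7 : Fin 8) : ℝ) = 7 := by norm_num
  refine absurd h7 (not_lt.2 (abs_le.2 ⟨?_, ?_⟩)) <;> norm_num at * <;> linarith

theorem cover (z : AddCircle (1 : ℝ)) {r : ℝ} (hr : 0 < r) : closedBall z r ⊆
    ⋃ i : Fin 8, closedBall (z + ((-r + (2 * (i : ℝ) + 1) * (r / 8) : ℝ) :
      AddCircle (1 : ℝ))) (r / 8) := by
  intro x hx
  obtain ⟨t, ht, ht'⟩ := exists_rep (x - z)
  have h1 : |t| ≤ r := by rw [ht', ← dist_eq_norm]; exact hx
  have h2 := abs_le.1 h1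
  obtain ⟨i, hi⟩ := exists_fin hr h2.1 h2.2
  refine mem_iUnion.2 ⟨i, ?_⟩
  rw [mem_closedBall, dist_eq_norm, ← sub_sub, ← ht, ← AddCircle.coe_sub]
  exact (norm_coe_le _).trans hi

/-- **(K)** -/
theorem lintegral_inv_ball (ν : Measure (AddCircle (1 : ℝ))) (z : AddCircle (1 : ℝ)) {r : ℝ}
    (hr : 0 < r) : ∫⁻ x in closedBall z r, (ν (closedBall x (r / 4)))⁻¹ ∂ν ≤ 8 := by
  calc ∫⁻ x in closedBall z r, (ν (closedBall x (r / 4)))⁻¹ ∂ν
      ≤ ∫⁻ x in ⋃ i : Fin 8, closedBall (z + ((-r + (2 * (i : ℝ) + 1) * (r / 8) : ℝ) :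
        AddCircle (1 : ℝ))) (r / 8), (ν (closedBall x (r / 4)))⁻¹ ∂ν :=
        lintegral_mono_set (cover z hr)
    _ ≤ ∑' i : Fin 8, ∫⁻ x in closedBall (z + ((-r + (2 * (i : ℝ) + 1) * (r / 8) : ℝ) :
        AddCircle (1 : ℝ))) (r / 8), (ν (closedBall x (r / 4)))⁻¹ ∂ν :=
        lintegral_iUnion_le _ _
    _ = ∑ i : Fin 8, ∫⁻ x in closedBall (z + ((-r + (2 * (i : ℝ) + 1) * (r / 8) : ℝ) :
        AddCircle (1 : ℝ))) (r / 8), (ν (closedBall x (r / 4)))⁻¹ ∂ν := tsum_fintype _
    _ ≤ ∑ _i : Fin 8, 1 := by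
        refine Finset.sum_le_sum fun i _ => ?_
        refine lintegral_inv_le_one ν isClosed_closedBall.measurableSet fun x hx y hy => ?_
        have h1 := dist_triangle_right x y (z + ((-r + (2 * (i : ℝ) + 1) * (r / 8) : ℝ) :
          AddCircle (1 : ℝ)))
        have h2 := mem_closedBall.1 hx
        have h3 := mem_closedBall.1 hy
        linarith
    _ = 8 := by simp

/-- the integral of `ν (B(x, r) ∩ A) / ν (B(x, r / 4))` is at most `8 ν A` -/
theorem lintegral_ball_inter (ν : Measure (AddCircle (1 : ℝ))) [SFinite ν] {r : ℝ} (hr : 0 < r)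
    {A : Set (AddCircle (1 : ℝ))} (hA : MeasurableSet A) :
    ∫⁻ x, ν (closedBall x r ∩ A) * (ν (closedBall x (r / 4)))⁻¹ ∂ν ≤ 8 * ν A := by
  have hs : MeasurableSet {p : AddCircle (1 : ℝ) × AddCircle (1 : ℝ) | dist p.2 p.1 ≤ r} :=
    (isClosed_le (continuous_snd.dist continuous_fst) continuous_const).measurableSet
  have hm := (meas_ball ν (r / 4)).inv
  calc ∫⁻ x, ν (closedBall x r ∩ A) * (ν (closedBall x (r / 4)))⁻¹ ∂ν
      = ∫⁻ x, ∫⁻ y, ({p : AddCircle (1 : ℝ) × AddCircle (1 : ℝ) | dist p.2 p.1 ≤ r}).indicator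
          (fun p => (ν (closedBall p.1 (r / 4)))⁻¹) (x, y) ∂(ν.restrict A) ∂ν := by
        refine lintegral_congr fun x => ?_
        have e1 : (fun y => ({p : AddCircle (1 : ℝ) × AddCircle (1 : ℝ) |
            dist p.2 p.1 ≤ r}).indicator (fun p => (ν (closedBall p.1 (r / 4)))⁻¹) (x, y)) =
            (closedBall x r).indicator (fun _ => (ν (closedBall x (r / 4)))⁻¹) := by
          funext y
          simp only [indicator, mem_setOf_eq, mem_closedBall]
        rw [e1, lintegral_indicator isClosed_closedBall.measurableSet, setLIntegral_const,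
          Measure.restrict_apply isClosed_closedBall.measurableSet, mul_comm]
    _ = ∫⁻ y, ∫⁻ x, ({p : AddCircle (1 : ℝ) × AddCircle (1 : ℝ) | dist p.2 p.1 ≤ r}).indicator
          (fun p => (ν (closedBall p.1 (r / 4)))⁻¹) (x, y) ∂ν ∂(ν.restrict A) := by
        refine lintegral_lintegral_swap ?_
        exact ((hm.comp measurable_fst).indicator hs).aemeasurable
    _ ≤ ∫⁻ _, 8 ∂(ν.restrict A) := by
        refine lintegral_mono fun y => ?_
        have e1 : (fun x => ({p : AddCircle (1 : ℝ) × AddCircle (1 : ℝ) |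
            dist p.2 p.1 ≤ r}).indicator (fun p => (ν (closedBall p.1 (r / 4)))⁻¹) (x, y)) =
            (closedBall y r).indicator (fun x => (ν (closedBall x (r / 4)))⁻¹) := by
          funext x
          simp only [indicator, mem_setOf_eq, mem_closedBall, dist_comm x y]
        show ∫⁻ x, ({p : AddCircle (1 : ℝ) × AddCircle (1 : ℝ) |
            dist p.2 p.1 ≤ r}).indicator (fun p => (ν (closedBall p.1 (r / 4)))⁻¹) (x, y) ∂ν ≤ 8
        rw [e1, lintegral_indicator isClosed_closedBall.measurableSet]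
        exact lintegral_inv_ball ν y hr
    _ = 8 * ν A := by rw [lintegral_const, Measure.restrict_apply_univ]

/-- the integral of `ν (B(x, r)) / ν (B(x, r / 4))` is at most `8 ν(univ)` -/
theorem lintegral_ball_div (ν : Measure (AddCircle (1 : ℝ))) [SFinite ν] {r : ℝ} (hr : 0 < r) :
    ∫⁻ x, ν (closedBall x r) * (ν (closedBall x (r / 4)))⁻¹ ∂ν ≤ 8 * ν univ := by
  simpa using lintegral_ball_inter ν hr (A := univ) MeasurableSet.univ

end Pool.Agent.Helper12.MX
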