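import Pool.Agent.Helper8.PR.Model
import Pool.Agent.Helper21.MG.Defs

/-!
# Sparse and dense comparisons in real register machines

Definitions only. The machines are those of `Pool/Agent/Helper8/PR/Model.lean`, the sparse forms
those of `Pool/Agent/Helper21/MG/Defs.lean`.
-/

set_option autoImplicit false

namespace Pool.Agent.Helper21.MX

open Pool.Agent.Helper22.ETModel
open Pool.Agent.Helper8.PR
open Pool.Agent.Helper21.MG (SparseForm)

variable {n D r R : ℕ}

/-- The restrictions, for fixed flags and random bits and all valid instances with weights in
`[-n ^ c, n ^ c]`:
* at every time at most `C` different configurations occur; a configuration consists of the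
  memory and the polynomials in the weights which are the contents of the registers;
* the polynomials in the weights asked for their signs, at all times together, are of two kinds:
  integer affine forms in at most `s` weights, with coefficients at most `κ` and constant term at
  most `B` in absolute value (their number is not restricted), and at most `K` different other
  polynomials, all of total degree at most `d`;
* the polynomials in the weights in zero tests have total degree at most `a` (their number is not
  restricted). -/
structure WithinM (A : Mach n D r R) (c C K d s κ B a : ℕ) : Prop where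
  space : ∀ fl ρ, ∀ t ≤ D, ∃ S : Finset (ℕ × (Fin r → WPol n)), S.card ≤ C ∧
    ∀ I : Inst n, ValidC c I → I.flag = fl → ((A.conf I ρ t).1, A.sym I ρ t) ∈ S
  sign : ∀ fl ρ, ∃ S : Finset (WPol n), S.card ≤ K ∧
    ∀ I : Inst n, ValidC c I → I.flag = fl → ∀ t < D, ∀ f,
      A.ask fl ρ t (A.conf I ρ t).1 = .sign f →
        SparseForm s κ B (sub (A.sym I ρ (t + 1)) f) ∨
          (sub (A.sym I ρ (t + 1)) f ∈ S ∧ (sub (A.sym I ρ (t + 1)) f).totalDegree ≤ d)
  zero : ∀ (I : Inst n) ρ, ValidC c I → ∀ t < D, ∀ f,
      A.ask I.flag ρ t (A.conf I ρ t).1 = .zero f →
        (sub (A.sym I ρ (t + 1)) f).totalDegree ≤ a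

end Pool.Agent.Helper21.MX
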