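import Pool.Agent.Helper12.MX.Model
import Pool.Agent.Helper21.MX.Defs
import Pool.Agent.Helper8.PR.Sim

/-!
# MIX, piece X: registers are simulated by memory states
-/

set_option autoImplicit false

namespace Pool.Agent.Helper21.MX

open Finset
open Pool.Agent.Helper22.ETModel Pool.Agent.Helper22.TSModel
open Pool.Agent.Helper8.PR
open Pool.Agent.Helper8.PQ (PolQ polFam DecidesC)
open Pool.Agent.Helper21.MG (SparseForm)

variable {n D r R c C K d s κ B a : ℕ}

lemma mono_sparse {κ' : ℕ} (h : κ ≤ κ') {p : WPol n} (hp : SparseForm s κ B p) :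
    SparseForm s κ' B p := by
  obtain ⟨z, γ, v, hz, hγ, rfl⟩ := hp
  exact ⟨z, γ, v, hz, fun l => (hγ l).trans (by exact_mod_cast h), rfl⟩

/-- Sparse forms have degree at most one. -/
lemma totalDegree_sparse {p : WPol n} (hp : SparseForm s κ B p) : p.totalDegree ≤ 1 := by
  obtain ⟨z, γ, v, -, -, rfl⟩ := hp
  refine (MvPolynomial.totalDegree_add _ _).trans (max_le ?_ ?_)
  · rw [MvPolynomial.totalDegree_C]
    exact Nat.zero_le _
  · refine MvPolynomial.totalDegree_finsetSum_le fun l _ => ?_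
    refine (MvPolynomial.totalDegree_mul _ _).trans ?_
    rw [MvPolynomial.totalDegree_C, zero_add]
    exact (MvPolynomial.totalDegree_X _).le

/-- The instance without edges. -/
private def zI (n : ℕ) : Inst n := ⟨fun _ _ => false, fun _ _ => 0⟩

private lemma zI_valid (n c : ℕ) : ValidC c (zI n) := by
  refine ⟨fun _ _ => rfl, fun _ => rfl, fun _ _ => rfl, fun i j => ?_⟩
  show |(0 : ℤ)| ≤ _
  rw [abs_zero]
  positivity

lemma WithinM.one_le {A : Mach n D r R} (hA : WithinM A c C K d s κ B a) : 1 ≤ C := by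
  obtain ⟨S, hS, hS'⟩ := hA.space (zI n).flag (fun _ => false) 0 (Nat.zero_le _)
  have := hS' (zI n) (zI_valid n c) rfl
  exact (Finset.card_pos.2 ⟨_, this⟩).trans_le hS

lemma WithinM.mono {κ' : ℕ} (h : κ ≤ κ') {A : Mach n D r R}
    (hA : WithinM A c C K d s κ B a) : WithinM A c C K d s κ' B a := by
  refine ⟨hA.space, fun fl ρ => ?_, hA.zero⟩
  obtain ⟨S, h1, h2⟩ := hA.sign fl ρ
  exact ⟨S, h1, fun I hI hfl t ht f hf =>
    (h2 I hI hfl t ht f hf).imp (mono_sparse h) fun h3 => h3⟩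

open Classical in
/-- The polynomials asked for in the configurations that may occur. -/
noncomputable def asked (A : Mach n D r R) (fl : Fin n → Fin n → Bool) (ρ : Fin R → Bool)
    (S : Fin D → Finset (ℕ × (Fin r → WPol n))) : Finset (WPol n) :=
  (univ : Finset (Fin D)).biUnion fun t => (S t).image fun u =>
    match A.ask fl ρ t.val u.1 with
    | .sign f => sub (nsy A fl ρ t.val u) f
    | .zero f => sub (nsy A fl ρ t.val u) f

lemma card_asked (A : Mach n D r R) (fl : Fin n → Fin n → Bool) (ρ : Fin R → Bool)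
    (S : Fin D → Finset (ℕ × (Fin r → WPol n))) (hS : ∀ t, (S t).card ≤ C) :
    (asked A fl ρ S).card ≤ C * D := by
  classical
  refine card_biUnion_le.trans ?_
  calc ∑ t : Fin D, _ ≤ ∑ _t : Fin D, C := sum_le_sum fun t _ => card_image_le.trans (hS t)
    _ = C * D := by
      rw [sum_const, card_univ, Fintype.card_fin, smul_eq_mul, mul_comm]

lemma mem_asked (A : Mach n D r R) (fl : Fin n → Fin n → Bool) (ρ : Fin R → Bool)
    (S : Fin D → Finset (ℕ × (Fin r → WPol n))) {I : Inst n} (hfl : I.flag = fl) {t : ℕ}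
    (ht : t < D) (hS : ((A.conf I ρ t).1, A.sym I ρ t) ∈ S ⟨t, ht⟩) {f : RPol n r}
    (hf : A.ask fl ρ t (A.conf I ρ t).1 = .sign f) :
    sub (A.sym I ρ (t + 1)) f ∈ asked A fl ρ S := by
  classical
  unfold asked
  rw [mem_biUnion]
  refine ⟨⟨t, ht⟩, mem_univ _, ?_⟩
  rw [mem_image]
  refine ⟨((A.conf I ρ t).1, A.sym I ρ t), hS, ?_⟩
  simp only
  rw [hf]
  subst hfl
  rfl

/-- The number of sign queries is at most the number of configurations. -/
lemma WithinM.trivial {A : Mach n D r R} (hA : WithinM A c C K d s κ B a) :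
    WithinM A c C (C * D) d s κ B a := by
  refine ⟨hA.space, fun fl ρ => ?_, hA.zero⟩
  choose S hS hS' using fun t : Fin D => hA.space fl ρ t.val t.isLt.le
  obtain ⟨S2, -, hS2⟩ := hA.sign fl ρ
  refine ⟨asked A fl ρ S, card_asked A fl ρ S hS, fun I hI hfl t ht f hf => ?_⟩
  rcases hS2 I hI hfl t ht f hf with h1 | h1
  · exact Or.inl h1
  · exact Or.inr ⟨mem_asked A fl ρ S hfl ht (hS' ⟨t, ht⟩ I hI hfl) hf, h1.2⟩

/-- A machine with registers is simulated by an algorithm without registers. -/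
theorem simulateM (hd : 1 ≤ d) (A : Mach n D r R) (hA : WithinM A c C K d s κ B a)
    (hdec : A.Decides c) :
    ∃ A' : Alg n D C R (PolQ n d a) SignType, FewM A' s κ B K ∧ DecidesC A' (polFam n d a) c := by
  classical
  have hC := hA.one_le
  choose S2 hS2 hS2' using hA.sign
  choose T hT hT' using fun fl ρ (t : Fin D) => hA.space fl ρ t.val t.isLt.le
  have hex : ∀ fl ρ t, ∃ (voc : Fin C → ℕ × (Fin r → WPol n))
      (num : ℕ × (Fin r → WPol n) → Fin C), t ≤ D → ∀ I : Inst n, ValidC c I → I.flag = fl →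
        voc (num ((A.conf I ρ t).1, A.sym I ρ t)) = ((A.conf I ρ t).1, A.sym I ρ t) := by
    intro fl ρ t
    by_cases ht : t ≤ D
    · obtain ⟨S, hS, hS'⟩ := hA.space fl ρ t ht
      obtain ⟨voc, num, h⟩ := exists_num (0, fun _ => 0) hC S hS
      exact ⟨voc, num, fun _ I hI hfl => h _ (hS' I hI hfl)⟩
    · exact ⟨fun _ => (0, fun _ => 0), fun _ => ⟨0, hC⟩, fun h => absurd h ht⟩
  choose voc num hvn using hex
  have hv : ∀ fl ρ, ∀ t ≤ D, ∀ I : Inst n, ValidC c I → I.flag = fl →
      voc fl ρ t (num fl ρ t ((A.conf I ρ t).1, A.sym I ρ t)) =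
        ((A.conf I ρ t).1, A.sym I ρ t) :=
    fun fl ρ t ht I hI hfl => hvn fl ρ t ht I hI hfl
  set S3 : (Fin n → Fin n → Bool) → (Fin R → Bool) → Finset (WPol n) := fun fl ρ =>
    (asked A fl ρ (T fl ρ)).filter (fun p => SparseForm s κ B p) ∪ S2 fl ρ with hS3
  have hS3' : ∀ fl ρ, ∀ I : Inst n, ValidC c I → I.flag = fl → ∀ t < D, ∀ f,
      A.ask fl ρ t (A.conf I ρ t).1 = .sign f →
        sub (A.sym I ρ (t + 1)) f ∈ S3 fl ρ ∧ (sub (A.sym I ρ (t + 1)) f).totalDegree ≤ d := by
    intro fl ρ I hI hfl t ht f hf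
    rcases hS2' fl ρ I hI hfl t ht f hf with h1 | h1
    · refine ⟨mem_union_left _ (mem_filter.2 ⟨?_, h1⟩), (totalDegree_sparse h1).trans hd⟩
      exact mem_asked A fl ρ (T fl ρ) hfl ht (hT' fl ρ ⟨t, ht⟩ I hI hfl) hf
    · exact ⟨mem_union_right _ h1.1, h1.2⟩
  refine ⟨simA A d a S3 voc num, ?_, ?_⟩
  · intro fl ρ
    obtain ⟨F, hF⟩ := exists_list (0 : WPol n) (S2 fl ρ) (hS2 fl ρ)
    refine ⟨F, fun t _ v f hf hq => ?_⟩
    have hq' : qry (S3 fl ρ) d a (nsy A fl ρ t (voc fl ρ t v))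
        (A.ask fl ρ t (voc fl ρ t v).1) = .sign f hf := hq
    rcases hask : A.ask fl ρ t (voc fl ρ t v).1 with g | g
    · rw [hask] at hq'
      unfold qry at hq'
      simp only at hq'
      split_ifs at hq' with h3
      · injection hq' with h4
        rw [← h4]
        rcases mem_union.1 h3.1 with h5 | h5
        · exact Or.inl (mem_filter.1 h5).2
        · exact Or.inr (hF _ h5)
    · rw [hask] at hq'
      unfold qry at hq'
      simp only at hq'
      split_ifs at hq'
  · intro I hI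
    refine (hdec I hI).trans (Nat.mul_le_mul_left _ (card_le_card ?_))
    intro ρ hρ
    rw [mem_filter] at hρ ⊢
    refine ⟨mem_univ _, ?_⟩
    have h1 : (simA A d a S3 voc num).output (polFam n d a) I ρ = A.output I ρ := by
      show A.out I.flag ρ
        (voc I.flag ρ D ((simA A d a S3 voc num).state (polFam n d a) I ρ D)).1 = _
      rw [sim_state A hA.zero S3 hS3' voc num hv I hI ρ D le_rfl, hv I.flag ρ D le_rfl I hI rfl]
      rfl
    rw [h1]
    exact hρ.2

end Pool.Agent.Helper21.MX
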