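import Pool.Agent.Helper87.MX.Fr
import Pool.Agent.Helper12.MX.Cov

/-!
# MixingRates, W2a
-/

set_option autoImplicit false

namespace Pool.Agent.Helper12.MX

/-- **W2a.** -/
theorem s_W2a : Pool.Agent.Helper87.MX.S_W2a := fun μ _ _ hr z => lintegral_inv_ball μ z hr

end Pool.Agent.Helper12.MX
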